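import Pool.Agent.H961R2.Lev.Stubs

/-! Herglotz/Poisson representation in the half plane (task P4 of project LEV). -/

set_option autoImplicit false

open MeasureTheory Set Filter Topology InnerProductSpace Complex

namespace H961Lev

namespace P4aux

lemma zet_re (R t : ℝ) : (zet R t).re = R * Real.sin (t / R) := by
  simp [zet, -ofReal_mul, -ofReal_sub, -ofReal_sin, -ofReal_cos]

lemma zet_im (R t : ℝ) : (zet R t).im = R * (1 - Real.cos (t / R)) := by
  simp [zet, -ofReal_mul, -ofReal_sub, -ofReal_sin, -ofReal_cos]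

lemma zet_im_nonneg {R : ℝ} (hR : 0 < R) (t : ℝ) : 0 ≤ (zet R t).im := by
  rw [zet_im]
  have := Real.cos_le_one (t / R)
  exact mul_nonneg hR.le (by linarith)

lemma zet_norm (R t : ℝ) : ‖zet R t‖ ^ 2 = 2 * R * (zet R t).im := by
  rw [← Complex.normSq_eq_norm_sq, Complex.normSq_apply, zet_re, zet_im]
  have := Real.sin_sq_add_cos_sq (t / R)
  linear_combination (R ^ 2) * this

lemma zet_cont (R : ℝ) : Continuous (zet R) := by
  unfold zet
  fun_prop

lemma zet_ne {R : ℝ} {z : ℂ} (hz : ‖z‖ ^ 2 < 2 * R * z.im) (t : ℝ) : zet R t ≠ z := by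
  intro h
  have := zet_norm R t
  rw [h] at this
  linarith

lemma cont_u {u : ℂ → ℝ} (hu : PosHalf u) {R : ℝ} (hR : 0 < R) :
    Continuous (fun t => u (zet R t)) :=
  hu.cont.comp_continuous (zet_cont R) (fun t => zet_im_nonneg hR t)

lemma cont_KR {R : ℝ} (hR : 0 < R) {z : ℂ} (hz : ‖z‖ ^ 2 < 2 * R * z.im) :
    Continuous (fun t => KR R z t) := by
  unfold KR
  refine Continuous.div continuous_const ?_ (fun t => ?_)
  · have := zet_cont R
    fun_prop
  · have h1 : ‖zet R t - z‖ ≠ 0 := by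
      rw [norm_ne_zero_iff]
      exact sub_ne_zero.mpr (zet_ne hz t)
    positivity

lemma cont_term {u : ℂ → ℝ} (hu : PosHalf u) {R : ℝ} (hR : 0 < R) {z : ℂ}
    (hz : ‖z‖ ^ 2 < 2 * R * z.im) : Continuous (fun t => u (zet R t) * KR R z t) :=
  (cont_u hu hR).mul (cont_KR hR hz)

/-- the truncated Poisson integral -/
noncomputable def NM (u : ℂ → ℝ) (M : ℝ) (z : ℂ) : ℝ :=
  ∫ t in (-M)..M, PK z.im (z.re - t) * u (t : ℂ)

lemma key (h1 : S_P1) (h2 : S_P2) (h3 : S_P3) {u : ℂ → ℝ} (hu : PosHalf u) {z z' : ℂ}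
    (hz : 0 < z.im) (hz' : 0 < z'.im) {ε : ℝ} (hε : 0 < ε) :
    ∃ M₀ : ℝ, 0 < M₀ ∧ ∀ M : ℝ, M₀ ≤ M → 0 ≤ u z - NM u M z ∧
      u z - NM u M z ≤ (1 + ε) * (z.im / z'.im) * (u z' - NM u M z') := by
  obtain ⟨M₀, hM₀, h⟩ := h3 z z' hz hz' ε hε
  refine ⟨M₀, hM₀, fun M hM => ?_⟩
  obtain ⟨R₀, hR₀, hR⟩ := h M hM
  have hMpos : 0 < M := lt_of_lt_of_le hM₀ hM
  have hpi := Real.pi_pos
  set C : ℝ := (1 + ε) * (z.im / z'.im) with hC
  have hCpos : 0 < C := by positivity
  -- for large R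
  have hev : ∀ᶠ R : ℝ in atTop,
      0 ≤ 2 * Real.pi * u z - (∫ t in (-M)..M, u (zet R t) * KR R z t) ∧
      2 * Real.pi * u z - (∫ t in (-M)..M, u (zet R t) * KR R z t) ≤
        C * (2 * Real.pi * u z' - ∫ t in (-M)..M, u (zet R t) * KR R z' t) := by
    filter_upwards [eventually_ge_atTop R₀, eventually_gt_atTop (‖z‖ ^ 2 / (2 * z.im)),
      eventually_gt_atTop (‖z'‖ ^ 2 / (2 * z'.im)), eventually_ge_atTop (M / Real.pi),
      eventually_gt_atTop 0] with R e1 e2 e3 e4 e5
    have hzR : ‖z‖ ^ 2 < 2 * R * z.im := by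
      rw [div_lt_iff₀ (by positivity)] at e2
      linarith
    have hzR' : ‖z'‖ ^ 2 < 2 * R * z'.im := by
      rw [div_lt_iff₀ (by positivity)] at e3
      linarith
    have hMR : M ≤ Real.pi * R := by
      rw [div_le_iff₀ hpi] at e4
      linarith
    have hint : ∀ w : ℂ, ‖w‖ ^ 2 < 2 * R * w.im → ∀ a b : ℝ,
        IntervalIntegrable (fun t => u (zet R t) * KR R w t) volume a b :=
      fun w hw a b => (cont_term hu e5 hw).intervalIntegrable a b
    have hsplit : ∀ w : ℂ, ‖w‖ ^ 2 < 2 * R * w.im →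
        2 * Real.pi * u w - (∫ t in (-M)..M, u (zet R t) * KR R w t) =
        (∫ t in (-(Real.pi * R))..(-M), u (zet R t) * KR R w t) +
          ∫ t in M..(Real.pi * R), u (zet R t) * KR R w t := by
      intro w hw
      have e := h1 u hu w R e5 hw
      have e' : 2 * Real.pi * u w =
          ∫ t in (-(Real.pi * R))..(Real.pi * R), u (zet R t) * KR R w t := by
        rw [e]; field_simp
      rw [e', ← intervalIntegral.integral_add_adjacent_intervals (hint w hw _ (-M)) (hint w hw _ _),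
        ← intervalIntegral.integral_add_adjacent_intervals (hint w hw (-M) M) (hint w hw _ _)]
      ring
    rw [hsplit z hzR, hsplit z' hzR', mul_add, ← intervalIntegral.integral_const_mul,
      ← intervalIntegral.integral_const_mul]
    have hun : ∀ t, 0 ≤ u (zet R t) := fun t => hu.nonneg _ (zet_im_nonneg e5 t)
    have hpt : ∀ t : ℝ, M ≤ |t| → |t| ≤ Real.pi * R → 0 ≤ u (zet R t) * KR R z t ∧
        u (zet R t) * KR R z t ≤ C * (u (zet R t) * KR R z' t) := by
      intro t ht1 ht2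
      obtain ⟨g1, g2⟩ := hR R e1 t ht1 ht2
      refine ⟨mul_nonneg (hun t) g1, ?_⟩
      calc u (zet R t) * KR R z t ≤ u (zet R t) * (C * KR R z' t) :=
            mul_le_mul_of_nonneg_left g2 (hun t)
        _ = C * (u (zet R t) * KR R z' t) := by ring
    have hab1 : -(Real.pi * R) ≤ -M := by linarith
    have habs1 : ∀ t ∈ Icc (-(Real.pi * R)) (-M), M ≤ |t| ∧ |t| ≤ Real.pi * R := by
      intro t ht
      rw [abs_of_nonpos (by linarith [ht.2])]
      constructor <;> linarith [ht.1, ht.2]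
    have habs2 : ∀ t ∈ Icc M (Real.pi * R), M ≤ |t| ∧ |t| ≤ Real.pi * R := by
      intro t ht
      rw [abs_of_nonneg (by linarith [ht.1])]
      exact ht
    refine ⟨add_nonneg ?_ ?_, add_le_add ?_ ?_⟩
    · exact intervalIntegral.integral_nonneg hab1
        (fun t ht => (hpt t (habs1 t ht).1 (habs1 t ht).2).1)
    · exact intervalIntegral.integral_nonneg hMR
        (fun t ht => (hpt t (habs2 t ht).1 (habs2 t ht).2).1)
    · exact intervalIntegral.integral_mono_on hab1 (hint z hzR _ _)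
        ((hint z' hzR' _ _).const_mul C)
        (fun t ht => (hpt t (habs1 t ht).1 (habs1 t ht).2).2)
    · exact intervalIntegral.integral_mono_on hMR (hint z hzR _ _)
        ((hint z' hzR' _ _).const_mul C)
        (fun t ht => (hpt t (habs2 t ht).1 (habs2 t ht).2).2)
  have l1 := h2 u hu z hz M hMpos
  have l2 := h2 u hu z' hz' M hMpos
  have t1 : Tendsto (fun R : ℝ => 2 * Real.pi * u z - ∫ t in (-M)..M, u (zet R t) * KR R z t)
      atTop (𝓝 (2 * Real.pi * (u z - NM u M z))) := by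
    have := l1.const_sub (2 * Real.pi * u z)
    rw [mul_sub]
    exact this
  have t2 : Tendsto (fun R : ℝ => C * (2 * Real.pi * u z' -
      ∫ t in (-M)..M, u (zet R t) * KR R z' t))
      atTop (𝓝 (C * (2 * Real.pi * (u z' - NM u M z')))) := by
    have := (l2.const_sub (2 * Real.pi * u z')).const_mul C
    rw [mul_sub (2 * Real.pi)]
    exact this
  have r1 : 0 ≤ 2 * Real.pi * (u z - NM u M z) := ge_of_tendsto t1 (hev.mono fun R h => h.1)
  have r2 : 2 * Real.pi * (u z - NM u M z) ≤ C * (2 * Real.pi * (u z' - NM u M z')) :=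
    le_of_tendsto_of_tendsto t1 t2 (hev.mono fun R h => h.2)
  constructor
  · exact nonneg_of_mul_nonneg_right r1 (by positivity)
  · have : 2 * Real.pi * (u z - NM u M z) ≤ 2 * Real.pi * (C * (u z' - NM u M z')) := by
      linarith [r2, mul_left_comm C (2 * Real.pi) (u z' - NM u M z')]
    exact le_of_mul_le_mul_left this (by positivity)

lemma PK_nonneg {y : ℝ} (hy : 0 < y) (t : ℝ) : 0 ≤ PK y t := by
  have := Real.pi_pos
  unfold PK
  positivity

lemma cont_bdry {u : ℂ → ℝ} (hu : PosHalf u) : Continuous (fun t : ℝ => u (t : ℂ)) :=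
  hu.cont.comp_continuous Complex.continuous_ofReal (fun t => by simp)

lemma cont_int {u : ℂ → ℝ} (hu : PosHalf u) (x : ℝ) {y : ℝ} (hy : 0 < y) :
    Continuous (fun t : ℝ => PK y (x - t) * u (t : ℂ)) := by
  refine Continuous.mul ?_ (cont_bdry hu)
  unfold PK
  refine Continuous.div continuous_const (by fun_prop) (fun t => ?_)
  have := Real.pi_pos
  positivity

lemma integrable_PK (h1 : S_P1) (h2 : S_P2) (h3 : S_P3) {u : ℂ → ℝ} (hu : PosHalf u) {z : ℂ}
    (hz : 0 < z.im) : Integrable (fun t : ℝ => PK z.im (z.re - t) * u (t : ℂ)) := by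
  obtain ⟨M₀, hM₀, h⟩ := key h1 h2 h3 hu hz hz one_pos
  have hc := cont_int hu z.re hz
  refine integrable_of_intervalIntegral_norm_bounded (l := atTop) (a := fun M : ℝ => -M)
    (b := fun M : ℝ => M) (u z) (fun M => ?_) tendsto_neg_atTop_atBot tendsto_id ?_
  · exact (hc.integrableOn_Icc (a := -M) (b := M)).mono_set Ioc_subset_Icc_self
  · filter_upwards [eventually_ge_atTop M₀] with M hM
    have h4 := (h M hM).1
    have h5 : (∫ t in (-M)..M, ‖PK z.im (z.re - t) * u (t : ℂ)‖) = NM u M z := by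
      unfold NM
      congr 1
      funext t
      exact Real.norm_of_nonneg (mul_nonneg (PK_nonneg hz _) (hu.nonneg _ (by simp)))
    rw [h5]
    linarith

lemma tendsto_NM (h1 : S_P1) (h2 : S_P2) (h3 : S_P3) {u : ℂ → ℝ} (hu : PosHalf u) {z : ℂ}
    (hz : 0 < z.im) : Tendsto (fun M : ℝ => NM u M z) atTop
      (𝓝 (∫ t : ℝ, PK z.im (z.re - t) * u (t : ℂ))) :=
  intervalIntegral_tendsto_integral (integrable_PK h1 h2 h3 hu hz) tendsto_neg_atTop_atBot
    tendsto_id

/-- the limiting inequality -/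
lemma final_ineq (h1 : S_P1) (h2 : S_P2) (h3 : S_P3) {u : ℂ → ℝ} (hu : PosHalf u) {z z' : ℂ}
    (hz : 0 < z.im) (hz' : 0 < z'.im) :
    (u z - ∫ t : ℝ, PK z.im (z.re - t) * u (t : ℂ)) / z.im ≤
      (u z' - ∫ t : ℝ, PK z'.im (z'.re - t) * u (t : ℂ)) / z'.im := by
  set G := u z - ∫ t : ℝ, PK z.im (z.re - t) * u (t : ℂ) with hG
  set G' := u z' - ∫ t : ℝ, PK z'.im (z'.re - t) * u (t : ℂ) with hG'
  have t1 : Tendsto (fun M : ℝ => u z - NM u M z) atTop (𝓝 G) :=
    (tendsto_NM h1 h2 h3 hu hz).const_sub _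
  have t2 : Tendsto (fun M : ℝ => u z' - NM u M z') atTop (𝓝 G') :=
    (tendsto_NM h1 h2 h3 hu hz').const_sub _
  have h4 : ∀ ε : ℝ, 0 < ε → G ≤ (1 + ε) * (z.im / z'.im) * G' := by
    intro ε hε
    obtain ⟨M₀, hM₀, h⟩ := key h1 h2 h3 hu hz hz' hε
    refine le_of_tendsto_of_tendsto t1 (t2.const_mul _) ?_
    filter_upwards [eventually_ge_atTop M₀] with M hM
    exact (h M hM).2
  have t3 : Tendsto (fun ε : ℝ => (1 + ε) * (z.im / z'.im) * G') (𝓝[>] 0)
      (𝓝 ((1 + 0) * (z.im / z'.im) * G')) :=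
    (Continuous.tendsto (by fun_prop) 0).mono_left nhdsWithin_le_nhds
  have h5 : G ≤ (1 + 0) * (z.im / z'.im) * G' :=
    ge_of_tendsto t3 (by filter_upwards [self_mem_nhdsWithin] with ε hε; exact h4 ε hε)
  rw [div_le_div_iff₀ hz hz']
  have h6 : G * z'.im ≤ ((1 + 0) * (z.im / z'.im) * G') * z'.im :=
    mul_le_mul_of_nonneg_right h5 hz'.le
  have h7 : ((1 + 0) * (z.im / z'.im) * G') * z'.im = G' * z.im := by
    field_simp
    ring
  linarith

end P4aux

open P4aux in
theorem T_P4 (h1 : S_P1) (h2 : S_P2) (h3 : S_P3) : S_P4 := by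
  intro u A hu hA
  have hpi := Real.pi_pos
  have hI : Integrable (fun t : ℝ => u (t : ℂ) / (1 + t ^ 2)) := by
    have h := (integrable_PK h1 h2 h3 hu (z := I) (by simp)).const_mul Real.pi
    refine h.congr (Eventually.of_forall fun t => ?_)
    simp only [PK, I_im, I_re]
    have : (0 : ℝ) < 1 + t ^ 2 := by positivity
    have e : (0 - t) ^ 2 + 1 ^ 2 = 1 + t ^ 2 := by ring
    rw [e]
    field_simp
  refine ⟨hI, fun x y hy => ?_⟩
  have hzim : ((x : ℂ) + y * I).im = y := by simp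
  have hzre : ((x : ℂ) + y * I).re = x := by simp
  have hint : Integrable (fun t : ℝ => PK y (x - t) * u (t : ℂ)) := by
    have h := integrable_PK h1 h2 h3 hu (z := (x : ℂ) + y * I) (by rw [hzim]; exact hy)
    rwa [hzim, hzre] at h
  refine ⟨hint, ?_⟩
  set c : ℝ := (u ((x : ℂ) + y * I) - ∫ t : ℝ, PK y (x - t) * u (t : ℂ)) / y with hc
  -- along the imaginary axis
  have hcs : ∀ s : ℝ, 0 < s → u (s * I) / s = c + ∫ t : ℝ, u (t : ℂ) / (Real.pi * (t ^ 2 + s ^ 2)) := by
    intro s hs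
    have hsim : ((s : ℂ) * I).im = s := by simp
    have hsre : ((s : ℂ) * I).re = 0 := by simp
    have e1 := final_ineq h1 h2 h3 hu (z := (x : ℂ) + y * I) (z' := (s : ℂ) * I)
      (by rw [hzim]; exact hy) (by rw [hsim]; exact hs)
    have e2 := final_ineq h1 h2 h3 hu (z' := (x : ℂ) + y * I) (z := (s : ℂ) * I)
      (by rw [hsim]; exact hs) (by rw [hzim]; exact hy)
    rw [hzim, hzre, hsim, hsre] at e1 e2
    have e3 := le_antisymm e1 e2
    rw [← hc] at e3
    rw [e3, sub_div, ← integral_div]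
    have e4 : (fun t : ℝ => PK s (0 - t) * u (t : ℂ) / s) =
        fun t : ℝ => u (t : ℂ) / (Real.pi * (t ^ 2 + s ^ 2)) := by
      funext t
      have : (0 : ℝ) < t ^ 2 + s ^ 2 := by positivity
      simp only [PK]
      have e : (0 - t) ^ 2 + s ^ 2 = t ^ 2 + s ^ 2 := by ring
      rw [e]
      field_simp
    rw [e4]
    ring
  have hlim : Tendsto (fun s : ℝ => ∫ t : ℝ, u (t : ℂ) / (Real.pi * (t ^ 2 + s ^ 2))) atTop
      (𝓝 (∫ _ : ℝ, (0 : ℝ))) := by
    refine tendsto_integral_filter_of_dominated_convergence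
      (fun t : ℝ => Real.pi⁻¹ * (u (t : ℂ) / (1 + t ^ 2))) ?_ ?_ (hI.const_mul _) ?_
    · filter_upwards [eventually_gt_atTop 0] with s hs
      apply Continuous.aestronglyMeasurable
      refine Continuous.div (cont_bdry hu) (by fun_prop) (fun t => ?_)
      positivity
    · filter_upwards [eventually_ge_atTop 1] with s hs
      refine Eventually.of_forall fun t => ?_
      have hu0 : 0 ≤ u (t : ℂ) := hu.nonneg _ (by simp)
      rw [Real.norm_of_nonneg (by positivity)]
      have h6 : Real.pi⁻¹ * (u (t : ℂ) / (1 + t ^ 2)) = u (t : ℂ) / (Real.pi * (1 + t ^ 2)) := by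
        field_simp
      rw [h6]
      refine div_le_div_of_nonneg_left hu0 (by positivity) ?_
      refine mul_le_mul_of_nonneg_left ?_ hpi.le
      nlinarith
    · refine Eventually.of_forall fun t => ?_
      have h7 : Tendsto (fun s : ℝ => Real.pi * (t ^ 2 + s ^ 2)) atTop atTop := by
        refine Tendsto.const_mul_atTop hpi ?_
        refine tendsto_atTop_add_const_left _ _ ?_
        exact tendsto_pow_atTop (by norm_num)
      exact Tendsto.div_atTop tendsto_const_nhds h7
  rw [integral_zero] at hlim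
  have hlim2 : Tendsto (fun s : ℝ => u (s * I) / s) atTop (𝓝 (c + 0)) := by
    refine (hlim.const_add c).congr' ?_
    filter_upwards [eventually_gt_atTop 0] with s hs
    exact (hcs s hs).symm
  rw [add_zero] at hlim2
  have hcA : c = A := tendsto_nhds_unique hlim2 hA
  rw [← hcA, hc]
  field_simp
  ring

end H961Lev
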